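import Pool.Agent.Helper13_Eng2.Stmts
import Pool.Agent.Helper81_Eng.Main

/-! Squad ENG, part 2: module MSU. -/

set_option autoImplicit false

namespace Pool.Agent.Eng.H13

open Matrix

open Pool.Agent.Eng.H81 in
theorem msu (hexp : PdExpStmt) (hlift : LiftStmt) (hgun : GunStmt) (huni : UniStmt)
    (htsp : TspStmt) (hesp : EspStmt) (ht3 : T3Stmt) (hbc : SpBcStmt) (hq : HqStmt)
    (hsp : HspStmt) (hmon : HmonStmt) (hx4 : X4Stmt) (hx3 : X3Stmt) (hgut : GutStmt)
    (hwtw : WtwStmt) (hguo : GuoStmt) (hvod : VodStmt) (hpls : PlsStmt) : MainSuStmt := by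
  intro K _ _ _ n hne hn hexc
  obtain ⟨q, F, _, _, _, hK, hF, hfix⟩ := hq K hne
  have hFc : 2 ≤ q := hK.two_le
  haveI : Finite (Matrix (Fin n) (Fin n) K) := inferInstance
  haveI : Finite (SU n K) := Subtype.finite
  haveI : Finite (PSU n K) := inferInstanceAs (Finite (SU n K ⧸ Subgroup.center (SU n K)))
  refine hexp _ ?_
  rintro p k hp hk ⟨y, hy⟩
  obtain ⟨p0, hp0⟩ := CharP.exists K
  have hp0' : p0.Prime := (CharP.char_is_prime_or_zero K p0).resolve_right
    (CharP.char_ne_zero_of_finite K p0)
  have hq3 : n = 3 → 3 ≤ q := by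
    intro h3
    by_contra hcon
    have : q = 2 := by omega
    apply hexc
    refine ⟨h3, ?_⟩
    rw [hK.card, this]
    norm_num
  haveI hpF0 : CharP F p0 := by
    refine ⟨fun x => ?_⟩
    rw [← CharP.cast_eq_zero_iff K p0 x, ← map_natCast (algebraMap F K) x]
    exact (map_eq_zero (algebraMap F K)).symm
  obtain ⟨g, c, hg, hgk⟩ := hlift (SU n K) (Subgroup.center (SU n K)) p k hp ⟨y, hy⟩
  have hkc : k ≤ c := by
    have h1 : orderOf (QuotientGroup.mk g : SU n K ⧸ Subgroup.center (SU n K)) ∣ orderOf g :=
      orderOf_map_dvd (QuotientGroup.mk' (Subgroup.center (SU n K))) g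
    rwa [hg, hgk, Nat.pow_dvd_pow_iff_le_right hp.one_lt] at h1
  by_cases hpp : p = p0
  · subst hpp
    have hlt : p ^ (k - 1) < n := by
      by_contra hcon
      rw [not_lt] at hcon
      have h1 : (g : Matrix (Fin n) (Fin n) K) ^ (p ^ c) = 1 := by
        have : g ^ (p ^ c) = 1 := by rw [← hg, pow_orderOf_eq_one]
        have h2 := congrArg (Subtype.val) this
        simpa using h2
      have h2 := hgun K (Fin n) p _ c (k - 1) hp h1 (by
        rw [Fintype.card_fin]
        omega)
      apply not_pow (Subgroup.center (SU n K)) g p k hp hk hgk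
      apply Subtype.ext
      simpa using h2
    by_cases h2 : p = 2
    · subst h2
      have h20 : (2 : K) = 0 := by exact_mod_cast CharP.cast_eq_zero K 2
      by_cases h3 : n = 3
      · have hk2 : k ≤ 2 := by
          by_contra hcon
          have : 2 ^ 2 ≤ 2 ^ (k - 1) := Nat.pow_le_pow_right (by norm_num) (by omega)
          omega
        have h4 := hx4 K q hK h20 (hq3 h3)
        subst h3
        exact pd_dvd h4 (by
          have := Nat.pow_dvd_pow 2 hk2
          simpa using this)
      · exact hsp F K (n / 2) n _ hne hfix (by omega) (by omega)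
          (htsp F (n / 2) k (by omega) hk (by omega))
    · refine hsp F K (n / 2) n _ hne hfix (by omega) (by omega)
        (huni F p (n / 2) k hp h2 (by omega) hk ?_)
      have hodd : Odd (p ^ (k - 1)) := (hp.odd_of_ne_two h2).pow
      obtain ⟨t, ht⟩ := hodd
      omega
  · have hpK : (p : K) ≠ 0 := by
      intro h
      rw [CharP.cast_eq_zero_iff K p0 p] at h
      exact hpp ((Nat.prime_dvd_prime_iff_eq hp0' hp).mp h).symm
    by_cases h2 : p = 2
    · subst h2
      obtain ⟨m, hm1, hmn, hm⟩ := hgut K q c n g hK hn (by simpa using hpK) hg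
      exact hwtw K q m k n hK (by simpa using hpK) hm1 hmn
        ((Nat.pow_dvd_pow 2 hkc).trans hm)
    · have hcc : p ^ k ∣ p ^ c := Nat.pow_dvd_pow p hkc
      rcases hguo K q p c n g hK (by omega) hp h2 hpK (by omega) hg with
        ⟨i, hi1, hin, hi⟩ | ⟨m, hm1, hmn, hpq, hdv, hmin⟩ | ⟨i, s, hi1, hs1, hcs, hps, hin⟩
      · by_cases h3 : p ^ k = 3 ∧ (2 : F) = 0
        · haveI : CharP F 2 := by
            have : p0 ∣ 2 := by
              rw [← CharP.cast_eq_zero_iff F p0 2]
              exact_mod_cast h3.2
            have h5 : p0 = 2 := (Nat.prime_dvd_prime_iff_eq hp0' Nat.prime_two).mp this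
            rw [← h5]
            exact hpF0
          letI : Algebra (ZMod 2) F := ZMod.algebra F 2
          rw [h3.1]
          by_cases hn3 : n = 3
          · have h20 : (2 : K) = 0 := by
              rw [← map_ofNat (algebraMap F K) 2, h3.2, map_zero]
            have h4 := hx3 K q hK h20 (hq3 hn3)
            subst hn3
            exact h4
          · exact hsp F K 2 n 3 hne hfix (by norm_num) (by omega) (hbc (ZMod 2) F 2 3 ht3)
        · refine hsp F K i n _ hne hfix hi1 hin (hesp F p k i hp h2 hk hi1 ?_ h3)
          rw [hF]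
          rcases hi with hi | hi
          · exact Or.inl (hcc.trans hi)
          · exact Or.inr (hcc.trans hi)
      · exact pd_dvd (hmon K (2 * m + 1) n _ hne hmn
          (hvod K q m p c hK hm1 hp h2 hpq (by omega) hdv hmin)) hcc
      · -- an element of order `p ^ s` and norm one
        have hcard : Nat.card Kˣ = q ^ 2 - 1 := by
          rw [Nat.card_units, hK.card]
        have hpos : 0 < p ^ s := Nat.pos_of_ne_zero (pow_ne_zero _ hp.ne_zero)
        have hdvd : p ^ s ∣ Nat.card Kˣ := by
          rw [hcard]
          have h5 : q ^ 2 - 1 = (q + 1) * (q - 1) := by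
            have := Nat.sq_sub_sq q 1
            simpa using this
          rw [h5]
          exact hps.trans (dvd_mul_right _ _)
        obtain ⟨u, hu⟩ : ∃ u : Kˣ, orderOf u = p ^ s := by
          obtain ⟨v, hv⟩ := IsCyclic.exists_generator (α := Kˣ)
          have hv' : orderOf v = Nat.card Kˣ := orderOf_eq_card_of_forall_mem_zpowers hv
          obtain ⟨e, he⟩ := hdvd
          refine ⟨v ^ e, ?_⟩
          have he0 : e ≠ 0 := by
            rintro rfl
            rw [mul_zero] at he
            exact Nat.card_pos.ne' he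
          rw [orderOf_pow' v he0, hv', he, Nat.gcd_eq_right (dvd_mul_left _ _)]
          exact Nat.mul_div_cancel _ (Nat.pos_of_ne_zero he0)
        have ht : orderOf (u : K) = p ^ s := by rw [orderOf_units, hu]
        have hst : star (u : K) * (u : K) = 1 := by
          rw [hK.star, ← pow_succ]
          apply orderOf_dvd_iff_pow_eq_one.mp
          rw [ht]
          exact hps
        have hpodd : Odd p := hp.odd_of_ne_two h2
        have h3m : 3 ≤ p ^ i := by
          have h6 : 3 ≤ p := by
            have := hp.two_le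
            omega
          calc 3 ≤ p := h6
            _ = p ^ 1 := (pow_one p).symm
            _ ≤ p ^ i := Nat.pow_le_pow_right hp.pos hi1
        have hcop : Nat.Coprime (p ^ i + 1) (p ^ s) := by
          apply Nat.Coprime.pow_right
          have h7 : p ∣ p ^ i := dvd_pow_self p (by omega)
          rw [Nat.coprime_comm]
          rw [hp.coprime_iff_not_dvd]
          intro h8
          have h9 : p ∣ 1 := (Nat.dvd_add_right h7).mp h8
          exact hp.one_lt.ne' (Nat.dvd_one.mp h9)
        have h10 := hpls K (p ^ i) (p ^ s) (u : K) hne hpodd.pow h3m hpodd.pow hcop hst ht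
        have h11 : p ^ i * p ^ s = p ^ c := by rw [← pow_add, hcs, add_comm]
        rw [h11] at h10
        exact pd_dvd (hmon K (p ^ i + 1) n _ hne hin h10) hcc

end Pool.Agent.Eng.H13
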