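import Pool.Agent.Helper6_Eng.AllSl
import Pool.Agent.Helper13_Eng2.Main
import Pool.Agent.Helper18_Eng.HQ
import Pool.Agent.Helper19_Eng.Hbr
import Pool.Agent.Helper25_Eng.Vbm
import Pool.Agent.Helper25_Eng.X4
import Pool.Agent.Helper27_Eng.Plp
import Pool.Agent.Helper33_Eng.Vrk
import Pool.Agent.Helper33_Eng.X8
import Pool.Agent.Helper47_Eng.Htr
import Pool.Agent.Helper47_Eng.Wns
import Pool.Agent.Helper48_Eng.Hbas
import Pool.Agent.Helper4_Eng.Gue
import Pool.Agent.Helper4_Eng.Hab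
import Pool.Agent.Helper59_Eng.Vod
import Pool.Agent.Helper59_Eng.Vra
import Pool.Agent.Helper59_Eng.X5
import Pool.Agent.Helper63_Eng.Pls
import Pool.Agent.Helper63_Eng.Wpar
import Pool.Agent.Helper69_Eng.Hcen
import Pool.Agent.Helper69_Eng.Xr
import Pool.Agent.Helper72_Eng.GU
import Pool.Agent.Helper75_Eng.Hmon
import Pool.Agent.Helper75_Eng.Hsp
import Pool.Agent.Helper81_Eng.Gub
import Pool.Agent.Helper9_Eng.Wtw

/-! Squad ENG, part 2: assembly of the modules (unitary groups). -/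

set_option autoImplicit false

namespace Pool.Agent.Eng

theorem a_hq : HqStmt := H18.hq
theorem a_hbas : HbasStmt := H48.hbas a_hq H18.hnm
theorem a_hcen : HcenStmt := H69.hcen
theorem a_htr : HtrStmt := H47.htr a_hbas a_hcen
theorem a_hcv : HcvStmt := H47.hcv a_hbas a_hcen
theorem a_hbr : HbrStmt := H19.hbr a_br a_htr a_hcv H18.pdInj
theorem a_hab : HabStmt := H4.hab
theorem a_habv : HabvStmt := H19.habv a_hab a_htr a_hcv
theorem a_hmon : HmonStmt := H75.hmon a_hcen H18.pdCen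
theorem a_hsp : HspStmt := H75S.hsp a_htr a_hcv a_hmon H18.pdCen a_scm
theorem a_vrk : VrkStmt := H33.vrk a_lbm H8.lra (H25.vbm H6.lpf)
theorem a_vod : VodStmt := H59.vod a_hbr H59.vra a_vrk
theorem a_pls : PlsStmt := H63.pls H27.plp a_hbr
theorem a_wpar : WparStmt := H63.wpar a_habv
theorem a_wtw : WtwStmt := H9.wtw a_wpar H47.wns H47.wsq a_hmon
theorem a_x5 : X5Stmt := H59.x5 a_ab a_scm
theorem a_x8 : X8Stmt := H33.x8 a_hab a_hcen
theorem a_xr : XrStmt := H69X.xr a_gh a_hcen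
theorem a_x4 : X4Stmt := H25.x4 a_hq a_x5 a_x8 a_hsp
theorem a_x3 : X3Stmt := H25.x3 a_hq a_x5 a_esp a_xr a_hsp

theorem a_gub : GubStmt := H81.gub H4.gue
theorem a_gud : GudStmt := H81.gud H4.gue
theorem mainSu : MainSuStmt :=
  H13.msu H18.fexp a_lift H4.gun a_uni a_tsp a_esp a_t3 a_sbc a_hq a_hsp a_hmon a_x4 a_x3
    (H72.gut H4.gex a_gub a_gud) a_wtw (H72.guo H4.gex a_gub a_gud) a_vod a_pls

end Pool.Agent.Eng
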