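import Pool.Agent.Helper6_Eng.Stmts

/-!
# Squad ENG, part 2 (MP_da8eb3_al): unitary groups.  Definitions.
Proofs on paper: /team-store/PLAN_ENG2.md

Target: for every finite field `K` with a nontrivial involution `star` and every `n ≥ 3`
(except `n = 3`, `|K| = 4`), `exp (PSU(n,K))` divides `d (PSU(n,K))`.
-/

set_option autoImplicit false

namespace Pool.Agent.Eng

/-- The special unitary group of Mathlib: matrices `A` with `A * star A = 1` and `det A = 1`. -/
abbrev SU (n : ℕ) (K : Type) [Field K] [StarRing K] : Type :=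
  ↥(Matrix.specialUnitaryGroup (Fin n) K)

/-- The projective special unitary group. -/
abbrev PSU (n : ℕ) (K : Type) [Field K] [StarRing K] : Type :=
  SU n K ⧸ Subgroup.center (SU n K)

section
variable {K V : Type} [Field K] [StarRing K] [AddCommGroup V] [Module K V]

/-- Nondegenerate hermitian forms (semilinear in the first variable). -/
structure IsHerm (h : V → V → K) : Prop where
  add_right : ∀ u v w, h u (v + w) = h u v + h u w
  smul_right : ∀ (c : K) (u v : V), h u (c • v) = c * h u v
  symm : ∀ u v, h v u = star (h u v)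
  nondeg : ∀ u, (∀ v, h u v = 0) → u = 0

/-- The special isometry group of a form. -/
def SUV (h : V → V → K) : Subgroup (V ≃ₗ[K] V) where
  carrier := {g | (∀ u v, h (g u) (g v) = h u v) ∧ LinearMap.det (g : V →ₗ[K] V) = 1}
  mul_mem' := by
    rintro a b ⟨ha, ha'⟩ ⟨hb, hb'⟩
    refine ⟨fun u v => ?_, ?_⟩
    · change h (a (b u)) (a (b v)) = h u v
      rw [ha, hb]
    · have : ((a * b : V ≃ₗ[K] V) : V →ₗ[K] V) = (a : V →ₗ[K] V) * (b : V →ₗ[K] V) := rfl
      rw [this, map_mul, ha', hb', one_mul]
  one_mem' := by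
    refine ⟨fun u v => rfl, ?_⟩
    have : ((1 : V ≃ₗ[K] V) : V →ₗ[K] V) = 1 := rfl
    rw [this, map_one]
  inv_mem' := by
    rintro a ⟨ha, ha'⟩
    refine ⟨fun u v => ?_, ?_⟩
    · change h (a.symm u) (a.symm v) = h u v
      have := ha (a.symm u) (a.symm v)
      simpa using this.symm
    · have h1 : (a : V →ₗ[K] V) * ((a⁻¹ : V ≃ₗ[K] V) : V →ₗ[K] V) = 1 := by
        ext v
        exact a.apply_symm_apply v
      have h2 := congrArg LinearMap.det h1
      rw [map_mul, ha', one_mul, map_one] at h2
      exact h2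

end

/-- `K` is a finite field with `q²` elements and `star x = x ^ q`. -/
structure StarQ (K : Type) [Field K] [StarRing K] (q : ℕ) : Prop where
  card : Nat.card K = q ^ 2
  star : ∀ x : K, star x = x ^ q
  two_le : 2 ≤ q

end Pool.Agent.Eng
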