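import Pool.Agent.Helper13_Eng2.Defs

/-!
# Squad ENG, part 2: statements of all modules.  Proofs on paper: /team-store/PLAN_ENG2.md
-/

set_option autoImplicit false

namespace Pool.Agent.Eng

open Matrix

/-! ## Part H : unitary groups -/

/-- HQ: the fixed field of `star`. -/
def HqStmt : Prop := ∀ (K : Type) [Field K] [Finite K] [StarRing K], (∃ x : K, star x ≠ x) →
  ∃ (q : ℕ) (F : Type) (_ : Field F) (_ : Finite F) (_ : Algebra F K), StarQ K q ∧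
    Nat.card F = q ∧ ∀ c : F, star (algebraMap F K c) = algebraMap F K c

/-- HNM: the norm is surjective onto the fixed field. -/
def HnmStmt : Prop := ∀ (K : Type) [Field K] [Finite K] [StarRing K] (q : ℕ), StarQ K q →
  ∀ c : K, star c = c → ∃ x : K, star x * x = c

/-- HBAS: orthonormal bases. -/
def HbasStmt : Prop := ∀ (K V : Type) [Field K] [Finite K] [StarRing K] [AddCommGroup V]
  [Module K V] [FiniteDimensional K V] (h : V → V → K) (n : ℕ), (∃ x : K, star x ≠ x) →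
  IsHerm h → Module.finrank K V = n →
  ∃ e : V ≃ₗ[K] (Fin n → K), ∀ u v, h u v = ∑ i, star (e u i) * e v i

/-- HTR: transfer to the group of Mathlib. -/
def HtrStmt : Prop := ∀ (K V : Type) [Field K] [Finite K] [StarRing K] [AddCommGroup V]
  [Module K V] [FiniteDimensional K V] (h : V → V → K) (n : ℕ), (∃ x : K, star x ≠ x) →
  IsHerm h → Module.finrank K V = n → Nonempty (↥(SUV h) ≃* SU n K)

/-- HCEN: the center consists of the scalars. -/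
def HcenStmt : Prop := ∀ (K : Type) [Field K] [Finite K] [StarRing K] (n : ℕ) (g : SU n K),
  (∃ x : K, star x ≠ x) → (g ∈ Subgroup.center (SU n K) ↔
    ∃ c : K, (g : Matrix (Fin n) (Fin n) K) = c • (1 : Matrix (Fin n) (Fin n) K))

/-- HCV: the same for `SUV h`. -/
def HcvStmt : Prop := ∀ (K V : Type) [Field K] [Finite K] [StarRing K] [AddCommGroup V]
  [Module K V] [FiniteDimensional K V] (h : V → V → K), (∃ x : K, star x ≠ x) → IsHerm h →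
  ∀ g : ↥(SUV h), g ∈ Subgroup.center ↥(SUV h) → IsScal (g : V ≃ₗ[K] V)

/-- HBR: braid criterion for `PSU`. -/
def HbrStmt : Prop := ∀ (K V : Type) [Field K] [Finite K] [StarRing K] [AddCommGroup V]
  [Module K V] [FiniteDimensional K V] (h : V → V → K) (n N : ℕ), (∃ x : K, star x ≠ x) →
  IsHerm h → Module.finrank K V = n → ∀ w z : V ≃ₗ[K] V, w ∈ SUV h → z ∈ SUV h →
  z * w * z = w * z * w →
  (∀ (d : ℕ) (c : K), 0 < d → (∀ v, z ((w ^ (2 * d)) v) = c • (w ^ (2 * d)) (z v)) → N ∣ d) →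
  PD (PSU n K) N

/-- HAB: criterion for sections of a group. -/
def HabStmt : Prop := ∀ (G : Type) [Group G] (Z : Subgroup G) [Z.Normal] (M : Type)
  [AddCommGroup M] (π : G → M) (S : Set G) (y : G) (T : AddMonoid.End M),
  (∀ x ∈ S, eng y x ∈ S ∧ π (eng y x) = (T - 1) (π x)) →
  (∀ x z, x ∈ S → z ∈ Z → x * z ∈ S → π (x * z) = π x) →
  (∀ m : M, ∃ x ∈ S, π x = m) →
  ∀ d : ℕ, Law (G ⧸ Z) d → ∃ r : ℕ, (T - 1) ^ (r + d) = (T - 1) ^ r

/-- HABV: the same for `PSU`. -/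
def HabvStmt : Prop := ∀ (K V : Type) [Field K] [Finite K] [StarRing K] [AddCommGroup V]
  [Module K V] [FiniteDimensional K V] (h : V → V → K) (n : ℕ), (∃ x : K, star x ≠ x) →
  IsHerm h → Module.finrank K V = n → ∀ (M : Type) [AddCommGroup M]
  (π : (V ≃ₗ[K] V) → M) (S : Set (V ≃ₗ[K] V)) (y : V ≃ₗ[K] V) (T : AddMonoid.End M),
  (∀ x ∈ S, x ∈ SUV h) → y ∈ SUV h →
  (∀ x ∈ S, eng y x ∈ S ∧ π (eng y x) = (T - 1) (π x)) →
  (∀ x ∈ S, ∀ x' ∈ S, ∀ c : K, (∀ v, x' v = c • x v) → π x' = π x) →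
  (∀ m : M, ∃ x ∈ S, π x = m) →
  ∀ d : ℕ, Law (PSU n K) d → ∃ r : ℕ, (T - 1) ^ (r + d) = (T - 1) ^ r

/-- HMON -/
def HmonStmt : Prop := ∀ (K : Type) [Field K] [Finite K] [StarRing K] (m n N : ℕ),
  (∃ x : K, star x ≠ x) → m ≤ n → PD (PSU m K) N → PD (PSU n K) N

/-- HSP: `Sp(2m,F)` inside `SU(n,K)`. -/
def HspStmt : Prop := ∀ (F K : Type) [Field F] [Field K] [Finite K] [StarRing K] [Algebra F K]
  (m n N : ℕ), (∃ x : K, star x ≠ x) → (∀ c : F, star (algebraMap F K c) = algebraMap F K c) →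
  1 ≤ m → 2 * m ≤ n → PD (PSp m F) N → PD (PSU n K) N

/-! ## Part V : the rigid family is unitary -/

/-- VRA: numerical part. -/
def VraStmt : Prop := ∀ (K L : Type) [Field K] [Finite K] [StarRing K] [Field L] [Algebra K L]
  [FiniteDimensional K L] (q m p c : ℕ) (lam : L), StarQ K q → 1 ≤ m →
  Module.finrank K L = 2 * m + 1 → p.Prime → p ≠ 2 → ¬ p ∣ q + 1 → 1 ≤ c →
  p ^ c ∣ q ^ (2 * m + 1) + 1 →
  (∀ j, 0 < j → j < 2 * m + 1 → ¬ p ^ c ∣ q ^ (2 * j) - 1) → orderOf lam = p ^ c →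
  Algebra.adjoin K {lam} = ⊤ ∧ Algebra.norm K lam = 1 ∧ lam ^ (q ^ (2 * m + 1) + 1) = 1 ∧
    ∀ (d : ℕ) (a : K), lam ^ (2 * d) = algebraMap K L a → p ^ c ∣ d

/-- VBM: the inverse of `b`. -/
def VbmStmt : Prop := ∀ (ι K : Type) [Fintype ι] [DecidableEq ι] [Field K] (m : ℕ)
  (lam : ι → K), Fintype.card ι = 2 * m + 1 → Function.Injective lam → ∏ i, lam i = 1 →
  (∀ i j, 1 + lam i * lam j ≠ 0) →
  bmat m lam * (Matrix.diagonal lam * bmat m lam * Matrix.diagonal lam) = 1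

/-- VRK: the operator `b` preserves a hermitian form. -/
def VrkStmt : Prop := ∀ (K L : Type) [Field K] [Finite K] [StarRing K] [Field L] [Algebra K L]
  [FiniteDimensional K L] (q m : ℕ) (lam : L), StarQ K q → 1 ≤ m →
  Module.finrank K L = 2 * m + 1 → Algebra.adjoin K {lam} = ⊤ → Algebra.norm K lam = 1 →
  lam ^ (q ^ (2 * m + 1) + 1) = 1 →
  ∃ (b : L →ₗ[K] L) (h : L → L → K), IsHerm h ∧ (∀ x, b (b x) = lam * b (lam * x)) ∧
    (∀ x, b x = 0 → x = 0) ∧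
    (∀ (μ : L) (c : K), (∀ x, b (μ * x) = c • (μ * b x)) → ∃ a : K, μ = algebraMap K L a) ∧
    (∀ x y, h (lam * x) (lam * y) = h x y) ∧ ∀ x y, h (b x) (b y) = h x y

/-- VOD -/
def VodStmt : Prop := ∀ (K : Type) [Field K] [Finite K] [StarRing K] (q m p c : ℕ),
  StarQ K q → 1 ≤ m → p.Prime → p ≠ 2 → ¬ p ∣ q + 1 → 1 ≤ c → p ^ c ∣ q ^ (2 * m + 1) + 1 →
  (∀ j, 0 < j → j < 2 * m + 1 → ¬ p ^ c ∣ q ^ (2 * j) - 1) → PD (PSU (2 * m + 1) K) (p ^ c)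

/-! ## Part P : monomial braid pairs -/

/-- The shift `i ↦ i + 1`, with a further fixed point. -/
def shift (m : ℕ) : Equiv.Perm (Option (ZMod m)) :=
  Equiv.optionCongr (Equiv.addRight (1 : ZMod m))

/-- PLP: the permutations. -/
def PlpStmt : Prop := ∀ m : ℕ, Odd m → 3 ≤ m → ∃ a : Equiv.Perm (Option (ZMod m)),
  a * a = 1 ∧ a none = some 0 ∧ (shift m * a) ^ 3 = 1

/-- PLS: the monomial group. -/
def PlsStmt : Prop := ∀ (K : Type) [Field K] [Finite K] [StarRing K] (m M0 : ℕ) (t : K),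
  (∃ x : K, star x ≠ x) → Odd m → 3 ≤ m → Odd M0 → Nat.Coprime (m + 1) M0 → star t * t = 1 →
  orderOf t = M0 → PD (PSU (m + 1) K) (m * M0)

/-! ## Part W : the 2-part, `q` odd -/

/-- WNS -/
def WnsStmt : Prop := ∀ (L : Type) [Field L] [Finite L] (e d : ℕ) (u : L), 0 < d →
  ¬ IsSquare u → u ^ d = 1 → 2 ^ e ∣ Nat.card L - 1 → 2 ^ e ∣ d

/-- WSQ -/
def WsqStmt : Prop := ∀ (L : Type) [Field L] [Finite L] (tau : L), IsSquare (-1 : L) →
  ¬ IsSquare tau → ¬ IsSquare (tau - 1) ∨ ¬ IsSquare (tau⁻¹ - 1)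

/-- The eigenvalue on the section. -/
noncomputable def tauW (K L : Type) [Field K] [Field L] [Algebra K L] (q : ℕ) (x : L) : L :=
  x⁻¹ * algebraMap K L (Algebra.norm K x ^ (q - 1))

/-- WPAR: a section of a parabolic subgroup. -/
def WparStmt : Prop := ∀ (K L : Type) [Field K] [Finite K] [StarRing K] [Field L] [Algebra K L]
  [FiniteDimensional K L] (q m : ℕ) (x : L), StarQ K q → (2 : K) ≠ 0 → 1 ≤ m →
  Module.finrank K L = m → x ≠ 0 → ∀ d : ℕ, Law (PSU (2 * m + 1) K) d →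
  ∃ r : ℕ, (tauW K L q x - 1) ^ (r + d) = (tauW K L q x - 1) ^ r

/-- WTW -/
def WtwStmt : Prop := ∀ (K : Type) [Field K] [Finite K] [StarRing K] (q m e n : ℕ),
  StarQ K q → (2 : K) ≠ 0 → 1 ≤ m → 2 * m + 1 ≤ n → 2 ^ e ∣ q ^ (2 * m) - 1 →
  PD (PSU n K) (2 ^ e)

/-! ## Part G : orders of elements -/

/-- GUE -/
def GueStmt : Prop := ∀ (K : Type) [Field K] [Finite K] [StarRing K] (q n : ℕ) (g : SU n K)
  (lam : AlgebraicClosure K), StarQ K q → Eig (g : Matrix (Fin n) (Fin n) K) lam →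
  lam ≠ 0 ∧ Eig (g : Matrix (Fin n) (Fin n) K) (lam ^ q)⁻¹

/-- GUB -/
def GubStmt : Prop := ∀ (K : Type) [Field K] [Finite K] [StarRing K] (q n : ℕ) (g : SU n K)
  (lam : AlgebraicClosure K), StarQ K q → Eig (g : Matrix (Fin n) (Fin n) K) lam →
  ∃ j : ℕ, 0 < j ∧ j ≤ n ∧ (orderOf lam : ℤ) ∣ (-(q : ℤ)) ^ j - 1

/-- GUD: if the conjugates of one eigenvalue exhaust the spectrum, the determinant gives a
condition. -/
def GudStmt : Prop := ∀ (K : Type) [Field K] [Finite K] [StarRing K] (q n : ℕ) (g : SU n K)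
  (lam : AlgebraicClosure K), StarQ K q → Eig (g : Matrix (Fin n) (Fin n) K) lam →
  (∀ j : ℕ, 0 < j → j < n → ¬ (orderOf lam : ℤ) ∣ (-(q : ℤ)) ^ j - 1) →
  (orderOf lam : ℤ) ∣ ∑ j ∈ Finset.range n, (-(q : ℤ)) ^ j

/-- GUO: odd primes. -/
def GuoStmt : Prop := ∀ (K : Type) [Field K] [Finite K] [StarRing K] (q p c n : ℕ)
  (g : SU n K), StarQ K q → 2 ≤ n → p.Prime → p ≠ 2 → (p : K) ≠ 0 → 1 ≤ c →
  orderOf g = p ^ c →
  (∃ i : ℕ, 1 ≤ i ∧ 2 * i ≤ n ∧ (p ^ c ∣ q ^ i - 1 ∨ p ^ c ∣ q ^ i + 1)) ∨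
  (∃ m : ℕ, 1 ≤ m ∧ 2 * m + 1 ≤ n ∧ ¬ p ∣ q + 1 ∧ p ^ c ∣ q ^ (2 * m + 1) + 1 ∧
    ∀ j, 0 < j → j < 2 * m + 1 → ¬ p ^ c ∣ q ^ (2 * j) - 1) ∨
  ∃ i s : ℕ, 1 ≤ i ∧ 1 ≤ s ∧ c = s + i ∧ p ^ s ∣ q + 1 ∧ p ^ i + 1 ≤ n

/-- GUT: the prime 2, `q` odd. -/
def GutStmt : Prop := ∀ (K : Type) [Field K] [Finite K] [StarRing K] (q c n : ℕ)
  (g : SU n K), StarQ K q → 3 ≤ n → (2 : K) ≠ 0 → orderOf g = 2 ^ c →
  ∃ m : ℕ, 1 ≤ m ∧ 2 * m + 1 ≤ n ∧ 2 ^ c ∣ q ^ (2 * m) - 1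

/-! ## Part X : `n = 3`, `q` even -/

/-- X5: subgroups of `SL(2,4)`. -/
def X5Stmt : Prop := ∀ (F : Type) [Field F] (om : F), (2 : F) = 0 → om ^ 2 + om + 1 = 0 →
  PD (PSp 1 F) 4 ∧ PD (PSp 1 F) 3

/-- X8: the group `3² : 4` in `PSU(3,q)`, `q = 2^f`, `f` odd. -/
def X8Stmt : Prop := ∀ (K : Type) [Field K] [Finite K] [StarRing K] (om : K),
  (2 : K) = 0 → om ^ 2 + om + 1 = 0 → star om = om ^ 2 → PD (PSU 3 K) 8

/-- XR: permutation of order 3 acting on the diagonal torus. -/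
def XrStmt : Prop := ∀ (K : Type) [Field K] [Finite K] [StarRing K] (q r : ℕ), StarQ K q →
  r.Prime → 5 ≤ r → r ∣ q + 1 → PD (PSU 3 K) 3

/-- X4 -/
def X4Stmt : Prop := ∀ (K : Type) [Field K] [Finite K] [StarRing K] (q : ℕ), StarQ K q →
  (2 : K) = 0 → 3 ≤ q → PD (PSU 3 K) 4

/-- X3 -/
def X3Stmt : Prop := ∀ (K : Type) [Field K] [Finite K] [StarRing K] (q : ℕ), StarQ K q →
  (2 : K) = 0 → 3 ≤ q → PD (PSU 3 K) 3

/-! ## Final statement -/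

/-- MSU -/
def MainSuStmt : Prop := ∀ (K : Type) [Field K] [Finite K] [StarRing K] (n : ℕ),
  (∃ x : K, star x ≠ x) → 3 ≤ n → ¬ (n = 3 ∧ Nat.card K = 4) →
  PD (PSU n K) (Monoid.exponent (PSU n K))

end Pool.Agent.Eng
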